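import Mathlib
import Pool.Agent.Helper20.FF.Defs

/-!
# Three elements (row P5 of MP_ff195a_co)
-/

set_option autoImplicit false

open scoped Pointwise

namespace Pool.Agent.Helper81.FF

open Pool.Agent.Helper82.Kneser Pool.Agent.Helper20.Span Pool.Agent.Helper20.FF

section shapes

variable {n : ℕ}

lemma prog_iff (a δ x : ZMod n) :
    (∃ i : ℕ, i < 3 ∧ x = a + i * δ) ↔ x = a ∨ x = a + δ ∨ x = a + 2 * δ := by
  constructor
  · rintro ⟨i, hi, rfl⟩
    interval_cases i
    · left; simp
    · right; left; simp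
    · right; right; simp
  · rintro (rfl | rfl | rfl)
    · exact ⟨0, by norm_num, by simp⟩
    · exact ⟨1, by norm_num, by simp⟩
    · exact ⟨2, by norm_num, by simp⟩

lemma hole_iff (a δ x : ZMod n) :
    ((∃ i : ℕ, i + 2 ≤ 3 ∧ x = a + i * δ) ∨ x = a + (3 : ℕ) * δ) ↔
      x = a ∨ x = a + δ ∨ x = a + 3 * δ := by
  constructor
  · rintro (⟨i, hi, rfl⟩ | rfl)
    · have h : i = 0 ∨ i = 1 := by omega
      rcases h with rfl | rfl
      · left; simp
      · right; left; simp
    · right; right; push_cast; rfl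
  · rintro (rfl | rfl | rfl)
    · exact Or.inl ⟨0, by norm_num, by simp⟩
    · exact Or.inl ⟨1, by norm_num, by simp⟩
    · exact Or.inr (by push_cast; rfl)

lemma prog_of {A : Finset (ZMod n)} (a δ : ZMod n) (hu : IsUnit δ)
    (h : ∀ x, x ∈ A ↔ x = a ∨ x = a + δ ∨ x = a + 2 * δ) : Prog 3 A :=
  ⟨a, δ, hu, fun x => (h x).trans (prog_iff a δ x).symm⟩

lemma hole_of {A : Finset (ZMod n)} (a δ : ZMod n) (hu : IsUnit δ)
    (h : ∀ x, x ∈ A ↔ x = a ∨ x = a + δ ∨ x = a + 3 * δ) : Hole 3 A :=
  ⟨a, δ, hu, fun x => (h x).trans (hole_iff a δ x).symm⟩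

variable {A : Finset (ZMod n)} {a r d : ZMod n}

lemma sp1 (hr : IsUnit r) (hA : ∀ x, x ∈ A ↔ x = a ∨ x = a + r ∨ x = a + d)
    (h : d = 2 * r) : Prog 3 A :=
  prog_of a r hr (fun x => by rw [hA, h])

lemma sp2 (hr : IsUnit r) (hA : ∀ x, x ∈ A ↔ x = a ∨ x = a + r ∨ x = a + d)
    (h : d = -r) : Prog 3 A :=
  prog_of (a + d) r hr (fun x => by
    rw [hA, show a + d + r = a by rw [h]; ring, show a + d + 2 * r = a + r by rw [h]; ring]
    tauto)

lemma sp3 (hr : IsUnit r) (hA : ∀ x, x ∈ A ↔ x = a ∨ x = a + r ∨ x = a + d)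
    (h : 2 * d = r) : Prog 3 A := by
  have hd : IsUnit d := by
    rw [← h] at hr
    exact isUnit_of_mul_isUnit_right hr
  refine prog_of a d hd (fun x => ?_)
  rw [hA, h]
  tauto

lemma sh1 (hr : IsUnit r) (hA : ∀ x, x ∈ A ↔ x = a ∨ x = a + r ∨ x = a + d)
    (h : d = 3 * r) : Hole 3 A :=
  hole_of a r hr (fun x => by rw [hA, h])

lemma sh2 (hr : IsUnit r) (hA : ∀ x, x ∈ A ↔ x = a ∨ x = a + r ∨ x = a + d)
    (h : d = -(2 * r)) : Hole 3 A :=
  hole_of (a + r) (-r) hr.neg (fun x => by
    rw [hA, show a + r + -r = a by ring, show a + r + 3 * -r = a + d by rw [h]; ring]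
    tauto)

lemma sh3 (hr : IsUnit r) (hA : ∀ x, x ∈ A ↔ x = a ∨ x = a + r ∨ x = a + d)
    (h : 2 * d = 3 * r) : Hole 3 A := by
  have hu : IsUnit (r - d) := by
    have h1 : 2 * (r - d) = -r := by linear_combination -h
    have h2 : IsUnit (2 * (r - d)) := by rw [h1]; exact hr.neg
    exact isUnit_of_mul_isUnit_right h2
  refine hole_of (a + d) (r - d) hu (fun x => ?_)
  rw [hA, show a + d + (r - d) = a + r by ring,
    show a + d + 3 * (r - d) = a by linear_combination -h]
  tauto

lemma sh4 (hr : IsUnit r) (hA : ∀ x, x ∈ A ↔ x = a ∨ x = a + r ∨ x = a + d)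
    (h : 2 * d = -r) : Hole 3 A := by
  have hu : IsUnit (-d) := by
    have h1 : 2 * (-d) = r := by linear_combination -h
    have h2 : IsUnit (2 * (-d)) := by rw [h1]; exact hr
    exact isUnit_of_mul_isUnit_right h2
  refine hole_of (a + d) (-d) hu (fun x => ?_)
  rw [hA, show a + d + -d = a by ring,
    show a + d + 3 * -d = a + r by linear_combination -h]
  tauto

lemma sh5 (hr : IsUnit r) (hA : ∀ x, x ∈ A ↔ x = a ∨ x = a + r ∨ x = a + d)
    (h : 3 * d = r) : Hole 3 A := by
  have hd : IsUnit d := by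
    rw [← h] at hr
    exact isUnit_of_mul_isUnit_right hr
  refine hole_of a d hd (fun x => ?_)
  rw [hA, h]
  tauto

lemma sh6 (hr : IsUnit r) (hA : ∀ x, x ∈ A ↔ x = a ∨ x = a + r ∨ x = a + d)
    (h : 3 * d = 2 * r) : Hole 3 A := by
  have hu : IsUnit (d - r) := by
    have h1 : 3 * (d - r) = -r := by linear_combination h
    have h2 : IsUnit (3 * (d - r)) := by rw [h1]; exact hr.neg
    exact isUnit_of_mul_isUnit_right h2
  refine hole_of (a + r) (d - r) hu (fun x => ?_)
  rw [hA, show a + r + (d - r) = a + d by ring,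
    show a + r + 3 * (d - r) = a by linear_combination h]
  tauto

lemma sf1 (hr : IsUnit r) (hA : ∀ x, x ∈ A ↔ x = a ∨ x = a + r ∨ x = a + d)
    (h : d = 4 * r) : Four A :=
  ⟨a, r, hr, fun x => by rw [hA, h]⟩

lemma sf2 (hr : IsUnit r) (hA : ∀ x, x ∈ A ↔ x = a ∨ x = a + r ∨ x = a + d)
    (h : d = -(3 * r)) : Four A :=
  ⟨a + r, -r, hr.neg, fun x => by
    rw [hA, show a + r + -r = a by ring, show a + r + 4 * -r = a + d by rw [h]; ring]
    tauto⟩

/-- normal form of a three-element set -/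
lemma exists_shape (hA : A.card = 3) (hr : r ≠ 0) (h2 : (A ∪ tr A r).card = 5) :
    ∃ a d : ZMod n, d ≠ 0 ∧ d ≠ r ∧ ∀ x, x ∈ A ↔ x = a ∨ x = a + r ∨ x = a + d := by
  classical
  have h3 := Finset.card_union_add_card_inter A (tr A r)
  rw [card_tr, h2, hA] at h3
  have h4 : 0 < (A ∩ tr A r).card := by omega
  obtain ⟨y, hy⟩ := Finset.card_pos.1 h4
  rw [Finset.mem_inter, mem_tr] at hy
  have hne : y - r ≠ y := by
    intro h
    apply hr
    have : y - (y - r) = 0 := by rw [h, sub_self]
    simpa using this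
  have hsub : ({y - r, y} : Finset (ZMod n)) ⊆ A := by
    intro z hz
    rw [Finset.mem_insert, Finset.mem_singleton] at hz
    rcases hz with rfl | rfl
    · exact hy.2
    · exact hy.1
  have h5 : (A \ {y - r, y}).card = 1 := by
    rw [Finset.card_sdiff_of_subset hsub, hA, Finset.card_pair hne]
  obtain ⟨c, hc⟩ := Finset.card_eq_one.1 h5
  have hcm : c ∈ A \ {y - r, y} := by rw [hc]; exact Finset.mem_singleton_self c
  rw [Finset.mem_sdiff, Finset.mem_insert, Finset.mem_singleton, not_or] at hcm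
  refine ⟨y - r, c - (y - r), ?_, ?_, ?_⟩
  · exact sub_ne_zero.2 hcm.2.1
  · intro h
    apply hcm.2.2
    linear_combination h
  · intro x
    rw [show y - r + r = y by ring, show y - r + (c - (y - r)) = c by ring]
    constructor
    · intro hx
      by_cases h6 : x ∈ ({y - r, y} : Finset (ZMod n))
      · rw [Finset.mem_insert, Finset.mem_singleton] at h6
        tauto
      · have h7 : x ∈ A \ {y - r, y} := Finset.mem_sdiff.2 ⟨hx, h6⟩
        rw [hc, Finset.mem_singleton] at h7
        exact Or.inr (Or.inr h7)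
    · rintro (rfl | rfl | rfl)
      · exact hy.2
      · exact hy.1
      · exact hcm.1

end shapes

/-- the arithmetic of the three cases -/
lemma tame_cases {n h : ℕ} (hh : 3 ≤ h) (ht : Tame n h) (hn : n = h * 3 ∨ n = h * 3 + 1) :
    (n = 9 ∧ h = 3) ∨ (n = 13 ∧ h = 4) ∨ (6 ≤ h ∧ n = h * 3 + 1 ∧ n.Prime) := by
  rcases hn with hn | hn
  · left
    have h1 := ht 3 ⟨h, by rw [hn, mul_comm]⟩
    have h2 : h = 3 := by
      by_contra hne
      have h3 : 3 % h = 3 := Nat.mod_eq_of_lt (by omega)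
      rw [h3] at h1
      omega
    exact ⟨by rw [hn, h2], h2⟩
  · right
    have hp : n.Prime := by
      rw [Nat.prime_def]
      refine ⟨by omega, fun e he => ?_⟩
      obtain ⟨c, hc⟩ := he
      have he' := ht e ⟨c, hc⟩
      have hdiv := Nat.div_add_mod e h
      rcases he' with h0 | h1
      · exfalso
        rw [h0, add_zero] at hdiv
        have h2 : h ∣ n := ⟨e / h * c, by rw [← mul_assoc, hdiv]; exact hc⟩
        rw [hn] at h2
        have h3 : h ∣ 1 := (Nat.dvd_add_right (Dvd.intro 3 rfl)).1 h2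
        have := Nat.le_of_dvd one_pos h3
        omega
      · rw [h1] at hdiv
        set t := e / h with htt
        have hc0 : c ≠ 0 := by
          rintro rfl
          omega
        have hle : e ≤ n := Nat.le_of_dvd (by omega) ⟨c, hc⟩
        have ht3 : t ≤ 3 := by
          by_contra hcon
          have : h * 4 ≤ h * t := Nat.mul_le_mul_left h (by omega)
          omega
        interval_cases t
        · left; omega
        · exfalso
          have hc3 : c < 3 := by
            by_contra hcon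
            have : e * 3 ≤ e * c := Nat.mul_le_mul_left e (by omega)
            omega
          interval_cases c <;> omega
        · exfalso
          have hc3 : c < 2 := by
            by_contra hcon
            have : e * 2 ≤ e * c := Nat.mul_le_mul_left e (by omega)
            omega
          interval_cases c <;> omega
        · right; omega
    by_cases h6 : 6 ≤ h
    · exact Or.inr ⟨h6, hn, hp⟩
    · left
      have h7 : h = 3 ∨ h = 4 ∨ h = 5 := by omega
      rcases h7 with rfl | rfl | rfl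
      · rw [hn] at hp; norm_num at hp
      · exact ⟨hn, rfl⟩
      · rw [hn] at hp; norm_num at hp

lemma dec9 : ∀ x : ZMod 9, x ≠ 0 → x ≠ 1 → x = 2 ∨ x = -1 ∨ 2 * x = 1 ∨ x = 3 ∨ x = -2 ∨
    2 * x = 3 ∨ 2 * x = -1 := by
  decide

lemma dec13 : ∀ x : ZMod 13, x ≠ 0 → x ≠ 1 → x = 2 ∨ x = -1 ∨ 2 * x = 1 ∨ x = 3 ∨ x = -2 ∨
    2 * x = 3 ∨ 2 * x = -1 ∨ 3 * x = 1 ∨ 3 * x = 2 ∨ x = 4 ∨ x = -3 := by
  decide

lemma case9 {A : Finset (ZMod 9)} {a r d : ZMod 9} (hr : IsUnit r) (hd : d ≠ 0) (hdr : d ≠ r)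
    (hA : ∀ x, x ∈ A ↔ x = a ∨ x = a + r ∨ x = a + d) : Prog 3 A ∨ Hole 3 A := by
  obtain ⟨s, hs⟩ := hr.exists_right_inv
  have hx : d = (d * s) * r := by linear_combination -d * hs
  have h0 : d * s ≠ 0 := by
    intro h
    rw [h, zero_mul] at hx
    exact hd hx
  have h1 : d * s ≠ 1 := by
    intro h
    rw [h, one_mul] at hx
    exact hdr hx
  rcases dec9 (d * s) h0 h1 with h | h | h | h | h | h | h
  · exact Or.inl (sp1 hr hA (by rw [hx, h]))
  · exact Or.inl (sp2 hr hA (by rw [hx, h]; ring))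
  · exact Or.inl (sp3 hr hA (by rw [hx, ← mul_assoc, h]; ring))
  · exact Or.inr (sh1 hr hA (by rw [hx, h]))
  · exact Or.inr (sh2 hr hA (by rw [hx, h]; ring))
  · exact Or.inr (sh3 hr hA (by rw [hx, ← mul_assoc, h]))
  · exact Or.inr (sh4 hr hA (by rw [hx, ← mul_assoc, h]; ring))

lemma case13 {A : Finset (ZMod 13)} {a r d : ZMod 13} (hr : IsUnit r) (hd : d ≠ 0) (hdr : d ≠ r)
    (hA : ∀ x, x ∈ A ↔ x = a ∨ x = a + r ∨ x = a + d) : Prog 3 A ∨ Hole 3 A ∨ Four A := by
  obtain ⟨s, hs⟩ := hr.exists_right_inv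
  have hx : d = (d * s) * r := by linear_combination -d * hs
  have h0 : d * s ≠ 0 := by
    intro h
    rw [h, zero_mul] at hx
    exact hd hx
  have h1 : d * s ≠ 1 := by
    intro h
    rw [h, one_mul] at hx
    exact hdr hx
  rcases dec13 (d * s) h0 h1 with h | h | h | h | h | h | h | h | h | h | h
  · exact Or.inl (sp1 hr hA (by rw [hx, h]))
  · exact Or.inl (sp2 hr hA (by rw [hx, h]; ring))
  · exact Or.inl (sp3 hr hA (by rw [hx, ← mul_assoc, h]; ring))
  · exact Or.inr (Or.inl (sh1 hr hA (by rw [hx, h])))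
  · exact Or.inr (Or.inl (sh2 hr hA (by rw [hx, h]; ring)))
  · exact Or.inr (Or.inl (sh3 hr hA (by rw [hx, ← mul_assoc, h])))
  · exact Or.inr (Or.inl (sh4 hr hA (by rw [hx, ← mul_assoc, h]; ring)))
  · exact Or.inr (Or.inl (sh5 hr hA (by rw [hx, ← mul_assoc, h]; ring)))
  · exact Or.inr (Or.inl (sh6 hr hA (by rw [hx, ← mul_assoc, h])))
  · exact Or.inr (Or.inr (sf1 hr hA (by rw [hx, h])))
  · exact Or.inr (Or.inr (sf2 hr hA (by rw [hx, h]; ring)))

/-- a coincidence of two of the ten sums -/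
lemma rel {n : ℕ} (hp : n.Prime) (h5 : 5 ≤ n) {A : Finset (ZMod n)} {a r d : ZMod n}
    (hr : IsUnit r) (hd : d ≠ 0) (hdr : d ≠ r)
    (hA : ∀ x, x ∈ A ↔ x = a ∨ x = a + r ∨ x = a + d) (p q : ℤ) (hp1 : -3 ≤ p) (hp2 : p ≤ 3)
    (hq1 : 0 ≤ q) (hq2 : q ≤ 3) (hpq1 : -3 ≤ p + q) (hpq2 : p + q ≤ 3) (hne : ¬(p = 0 ∧ q = 0))
    (h : (p : ZMod n) * r + (q : ZMod n) * d = 0) : Prog 3 A ∨ Hole 3 A := by
  have : Fact n.Prime := ⟨hp⟩
  have hr0 : r ≠ 0 := hr.ne_zero
  have hsm : ∀ m : ℕ, 0 < m → m < 5 → (m : ZMod n) ≠ 0 := by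
    intro m h1 h2 h3
    rw [ZMod.natCast_eq_zero_iff] at h3
    have := Nat.le_of_dvd h1 h3
    omega
  have t2 : (2 : ZMod n) ≠ 0 := by exact_mod_cast hsm 2 (by norm_num) (by norm_num)
  have t3 : (3 : ZMod n) ≠ 0 := by exact_mod_cast hsm 3 (by norm_num) (by norm_num)
  have e : d - r ≠ 0 := sub_ne_zero.2 hdr
  interval_cases q
  · exfalso
    have hpz : p ≠ 0 := fun h0 => hne ⟨h0, rfl⟩
    have h6 : (p : ZMod n) * r = 0 := by simpa using h
    rcases mul_eq_zero.1 h6 with h7 | h7
    · interval_cases p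
      · apply t3; push_cast at h7; linear_combination -h7
      · apply t2; push_cast at h7; linear_combination -h7
      · push_cast at h7; exact one_ne_zero (by linear_combination -h7 : (1 : ZMod n) = 0)
      · exact hpz rfl
      · push_cast at h7; exact one_ne_zero h7
      · apply t2; push_cast at h7; exact h7
      · apply t3; push_cast at h7; exact h7
    · exact hr0 h7
  · have h8 : p ≤ 2 := by omega
    interval_cases p
    · right; apply sh1 hr hA; push_cast at h; linear_combination h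
    · left; apply sp1 hr hA; push_cast at h; linear_combination h
    · exfalso; apply e; push_cast at h; linear_combination h
    · exfalso; apply hd; push_cast at h; linear_combination h
    · left; apply sp2 hr hA; push_cast at h; linear_combination h
    · right; apply sh2 hr hA; push_cast at h; linear_combination h
  · have h8 : p ≤ 1 := by omega
    interval_cases p
    · right; apply sh3 hr hA; push_cast at h; linear_combination h
    · exfalso
      have h9 : 2 * (d - r) = 0 := by push_cast at h; linear_combination h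
      exact (mul_ne_zero t2 e) h9
    · left; apply sp3 hr hA; push_cast at h; linear_combination h
    · exfalso
      have h9 : 2 * d = 0 := by push_cast at h; linear_combination h
      exact (mul_ne_zero t2 hd) h9
    · right; apply sh4 hr hA; push_cast at h; linear_combination h
  · have h8 : p ≤ 0 := by omega
    interval_cases p
    · exfalso
      have h9 : 3 * (d - r) = 0 := by push_cast at h; linear_combination h
      exact (mul_ne_zero t3 e) h9
    · right; apply sh6 hr hA; push_cast at h; linear_combination h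
    · right; apply sh5 hr hA; push_cast at h; linear_combination h
    · exfalso
      have h9 : 3 * d = 0 := by push_cast at h; linear_combination h
      exact (mul_ne_zero t3 hd) h9

lemma mem_ns_of {n : ℕ} {A : Finset (ZMod n)} {a r d : ZMod n} (h0 : a ∈ A) (h1 : a + r ∈ A)
    (h2 : a + d ∈ A) (j : ℕ) : ∀ u v : ℕ, u + v ≤ j →
      (j : ZMod n) * a + u * r + v * d ∈ ns A j := by
  induction j with
  | zero =>
    intro u v huv
    obtain rfl : u = 0 := by omega
    obtain rfl : v = 0 := by omega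
    simp [ns_zero]
  | succ j ih =>
    intro u v huv
    rw [ns_succ, Finset.mem_add]
    rcases u with _ | u
    · rcases v with _ | v
      · exact ⟨_, ih 0 0 (by omega), a, h0, by push_cast; ring⟩
      · exact ⟨_, ih 0 v (by omega), a + d, h2, by push_cast; ring⟩
    · exact ⟨_, ih u v (by omega), a + r, h1, by push_cast; ring⟩

/-- few threefold sums: two of the ten sums coincide -/
lemma few {n : ℕ} (hp : n.Prime) (h5 : 5 ≤ n) {A : Finset (ZMod n)} {a r d : ZMod n}
    (hr : IsUnit r) (hd : d ≠ 0) (hdr : d ≠ r)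
    (hA : ∀ x, x ∈ A ↔ x = a ∨ x = a + r ∨ x = a + d) (h9 : (ns A 3).card ≤ 9) :
    Prog 3 A ∨ Hole 3 A := by
  classical
  have h0 : a ∈ A := (hA a).2 (Or.inl rfl)
  have h1 : a + r ∈ A := (hA _).2 (Or.inr (Or.inl rfl))
  have h2 : a + d ∈ A := (hA _).2 (Or.inr (Or.inr rfl))
  set T : Finset (ℕ × ℕ) := (Finset.range 4 ×ˢ Finset.range 4).filter (fun t => t.1 + t.2 ≤ 3)
    with hT
  have hTc : T.card = 10 := by rw [hT]; decide
  obtain ⟨s, hs, t, ht, hst, heq⟩ := Finset.exists_ne_map_eq_of_card_lt_of_maps_to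
    (s := T) (t := ns A 3) (f := fun t => ((3 : ℕ) : ZMod n) * a + t.1 * r + t.2 * d)
    (by omega) (by
      intro t ht
      rw [hT, Finset.mem_coe, Finset.mem_filter] at ht
      exact mem_ns_of h0 h1 h2 3 t.1 t.2 ht.2)
  rw [hT, Finset.mem_filter] at hs ht
  obtain ⟨u, v⟩ := s
  obtain ⟨u', v'⟩ := t
  simp only at hs ht heq
  have hne : ¬(u = u' ∧ v = v') := fun h => hst (by rw [h.1, h.2])
  rcases le_total v' v with hv | hv
  · refine rel hp h5 hr hd hdr hA ((u : ℤ) - u') ((v : ℤ) - v') (by omega) (by omega) (by omega)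
      (by omega) (by omega) (by omega) (fun h => hne ⟨by omega, by omega⟩) ?_
    push_cast
    linear_combination heq
  · refine rel hp h5 hr hd hdr hA ((u' : ℤ) - u) ((v' : ℤ) - v) (by omega) (by omega) (by omega)
      (by omega) (by omega) (by omega) (fun h => hne ⟨by omega, by omega⟩) ?_
    push_cast
    linear_combination -heq

lemma card_ns_mono {G : Type*} [AddCommGroup G] [DecidableEq G] {A : Finset G} (hA : A.Nonempty)
    {i j : ℕ} (hij : i ≤ j) : (ns A i).card ≤ (ns A j).card := by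
  obtain ⟨k, rfl⟩ := Nat.exists_eq_add_of_le hij
  obtain ⟨c, hc⟩ := ns_nonempty hA k
  rw [ns_add, add_comm (ns A i), ← card_tr (ns A i) c]
  exact Finset.card_le_card (tr_subset_add hc)

lemma card_sub_dvd {n : ℕ} [NeZero n] {P : Finset (ZMod n)} (hP : IsSub P) : P.card ∣ n := by
  let K : AddSubgroup (ZMod n) :=
    { carrier := {g | g ∈ P}
      zero_mem' := hP.zero
      add_mem' := fun ha hb => hP.add ha hb
      neg_mem' := fun ha => hP.neg ha }
  have h1 : Nat.card K ∣ Nat.card (ZMod n) := AddSubgroup.card_addSubgroup_dvd_card K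
  have h2 : Nat.card K = P.card := by
    have : Nat.card K = Nat.card P := rfl
    rw [this, Nat.card_eq_fintype_card, Fintype.card_coe]
  rw [h2, Nat.card_eq_fintype_card, ZMod.card] at h1
  exact h1

lemma pigeon {n h : ℕ} [NeZero n] {A : Finset (ZMod n)} (hA2 : ns A h ≠ Finset.univ) {j : ℕ}
    (hj : j ≤ h) : (ns A j).card + (ns A (h - j)).card ≤ n := by
  classical
  obtain ⟨x, hx⟩ : ∃ x, x ∉ ns A h := by
    by_contra hcon
    push Not at hcon
    exact hA2 (Finset.eq_univ_iff_forall.2 hcon)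
  have h1 : Disjoint (ns A j) ((ns A (h - j)).image (fun y => x - y)) := by
    rw [Finset.disjoint_left]
    intro y hy hy'
    obtain ⟨z, hz, hzy⟩ := Finset.mem_image.1 hy'
    apply hx
    have h2 : ns A h = ns A j + ns A (h - j) := by rw [← ns_add]; congr 1; omega
    rw [h2, Finset.mem_add]
    exact ⟨y, hy, z, hz, by rw [← hzy]; ring⟩
  have h2 : ((ns A (h - j)).image (fun y => x - y)).card = (ns A (h - j)).card :=
    Finset.card_image_of_injective _ sub_right_injective
  have h3 := Finset.card_le_univ ((ns A j) ∪ ((ns A (h - j)).image (fun y => x - y)))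
  rw [Finset.card_union_of_disjoint h1, h2, ZMod.card] at h3
  exact h3

lemma prime_case {n h : ℕ} [NeZero n] (hp : n.Prime) (h6 : 6 ≤ h) (hn : n = h * 3 + 1)
    {A : Finset (ZMod n)} (hA : A.card = 3) (hA2 : ns A h ≠ Finset.univ) :
    Prog 3 A ∨ (ns A 3).card ≤ 9 := by
  classical
  by_contra hcon
  rw [not_or, not_le] at hcon
  obtain ⟨hnp, h10⟩ := hcon
  have hne : A.Nonempty := Finset.card_pos.1 (by omega)
  have hpg := pigeon hA2 (j := 3) (by omega)
  have hNQ : ∀ P : Finset (ZMod n), IsSub P → 2 ≤ P.card → P.card < Fintype.card (ZMod n) →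
      A.card + P.card ≤ (A + P).card := by
    intro P hP h2 hlt
    exfalso
    rw [ZMod.card] at hlt
    rcases (Nat.dvd_prime hp).1 (card_sub_dvd hP) with h | h <;> omega
  have key : ∀ j, 3 ≤ j → j ≤ h - 3 → 3 * j + 1 ≤ (ns A j).card := by
    intro j hj
    induction j, hj using Nat.le_induction with
    | base => intro _; omega
    | succ j hj ih =>
      intro hjh
      have h1 := ih (by omega)
      have h2 := card_ns_mono hne (show j + 1 ≤ h - 3 by omega)
      rw [ns_succ] at h2 ⊢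
      by_cases h3 : (ns A j + A).card + 1 ≤ (ns A j).card + A.card
      · exfalso
        apply hnp
        obtain ⟨a, x, hx, hS⟩ := vosper (S := A) (X := ns A j) (by omega) hNQ (by omega)
          (by rw [ZMod.card]; omega) h3
        have hu : IsUnit x := by
          obtain ⟨k, hk⟩ := AddSubgroup.mem_zmultiples_iff.1 (hx 1)
          rw [zsmul_eq_mul] at hk
          exact IsUnit.of_mul_eq_one_right _ hk
        refine ⟨a, x, hu, fun y => ?_⟩
        rw [hS, hA, Finset.mem_image]
        constructor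
        · rintro ⟨i, hi, rfl⟩
          exact ⟨i, Finset.mem_range.1 hi, by rw [nsmul_eq_mul]⟩
        · rintro ⟨i, hi, rfl⟩
          exact ⟨i, Finset.mem_range.2 hi, by rw [nsmul_eq_mul]⟩
      · omega
  have := key (h - 3) (by omega) le_rfl
  omega

/-- (P5) three elements -/
theorem three_elements (n h : ℕ) [NeZero n] (hh : 3 ≤ h) (ht : Tame n h)
    (hn : n = h * 3 ∨ n = h * 3 + 1) {A : Finset (ZMod n)} (hA : A.card = 3)
    (hA2 : ns A h ≠ Finset.univ) (hAA : (A + A).card = 6)
    {r : ZMod n} (hr : IsUnit r) (h2 : (A ∪ tr A r).card = 5) :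
    Prog 3 A ∨ Hole 3 A ∨ (n = 13 ∧ h = 4 ∧ Four A) := by
  have _h6 := hAA
  have : Fact (1 < n) := ⟨by omega⟩
  obtain ⟨a, d, hd, hdr, hs⟩ := exists_shape hA hr.ne_zero h2
  rcases tame_cases hh ht hn with ⟨rfl, -⟩ | ⟨rfl, rfl⟩ | ⟨h6, hn1, hp⟩
  · rcases case9 hr hd hdr hs with h | h
    · exact Or.inl h
    · exact Or.inr (Or.inl h)
  · rcases case13 hr hd hdr hs with h | h | h
    · exact Or.inl h
    · exact Or.inr (Or.inl h)
    · exact Or.inr (Or.inr ⟨rfl, rfl, h⟩)
  · rcases prime_case hp h6 hn1 hA hA2 with h | h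
    · exact Or.inl h
    · rcases few hp (by omega) hr hd hdr hs h with h | h
      · exact Or.inl h
      · exact Or.inr (Or.inl h)

end Pool.Agent.Helper81.FF
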